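import Mathlib

/-!
# The expansion exponent: `c^* ≥ 1`

The class of all subgraphs of the cliques `K_m`, `m = r^k`, with every edge subdivided `2r` times
(with a pendant path at every branch vertex), has balanced separators of order
`O(n^{1 - 1/(k+1)})`, and `K_{r^k}` is a depth-`r` minor of one of its members.
-/

namespace Pool.Agent.Results.MP_2f3b43_co.ExponentOne

open Filter Asymptotics SimpleGraph

/-- A monotone class of finite graphs: a class closed under taking subgraphs (and isomorphic
copies). -/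
structure MonotoneClass where
  mem : ∀ {V : Type}, SimpleGraph V → Prop
  finite : ∀ {V : Type} (G : SimpleGraph V), mem G → Finite V
  mono : ∀ {V W : Type} (G : SimpleGraph V) (H : SimpleGraph W), G ⊑ H → mem H → mem G

/-- `S` is a balanced separator of `G`: every component of `G - S` has at most `2n/3` vertices. -/
def IsBalancedSeparator {V : Type} (G : SimpleGraph V) (S : Set V) : Prop :=
  ∀ c : (G.induce Sᶜ).ConnectedComponent, 3 * Nat.card c.supp ≤ 2 * Nat.card V

/-- Every `n`-vertex graph of the class has a balanced separator of order `O(n^{1-δ})`. -/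
def SublinearSeparators (C : MonotoneClass) (δ : ℝ) : Prop :=
  ∃ K : ℝ, ∀ {V : Type} (G : SimpleGraph V), C.mem G →
    ∃ S : Set V, IsBalancedSeparator G S ∧ (S.ncard : ℝ) ≤ K * (Nat.card V : ℝ) ^ (1 - δ)

/-- `H` is a depth-`r` minor of `G`: there are disjoint connected vertex sets `B u` of radius at
most `r` (a centre `x`, and walks inside of `B u` of length at most `r` from `x` to all vertices of
`B u`) such that adjacent vertices of `H` have adjacent sets. -/
def IsShallowMinor (r : ℕ) {W V : Type} (H : SimpleGraph W) (G : SimpleGraph V) : Prop :=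
  ∃ B : W → Set V, (∀ u v, u ≠ v → Disjoint (B u) (B v)) ∧
    (∀ u, ∃ x ∈ B u, ∀ y ∈ B u, ∃ p : G.Walk x y, p.length ≤ r ∧ ∀ z ∈ p.support, z ∈ B u) ∧
    ∀ u v, H.Adj u v → ∃ x ∈ B u, ∃ y ∈ B v, G.Adj x y

/-- The average degree of a finite graph. -/
noncomputable def avgDegree {W : Type} (H : SimpleGraph W) : ℝ :=
  2 * (H.edgeSet.ncard : ℝ) / Nat.card W

/-- The class has expansion bounded by `f`. -/
def ExpansionBoundedBy (C : MonotoneClass) (f : ℕ → ℝ) : Prop :=
  ∀ (r : ℕ) {V : Type} (G : SimpleGraph V), C.mem G →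
    ∀ {W : Type} [Finite W] [Nonempty W] (H : SimpleGraph W), IsShallowMinor r H G →
      avgDegree H ≤ f r

/-- The set `A` of the problem. -/
def A : Set ℝ :=
  {c | 0 < c ∧ ∀ δ : ℝ, 0 < δ → δ ≤ 1 → ∀ C : MonotoneClass, SublinearSeparators C δ →
    ∃ f : ℕ → ℝ, ExpansionBoundedBy C f ∧ f =O[atTop] (fun r : ℕ => (r : ℝ) ^ (c / δ))}

/-! ### The subdivided cliques -/

/-- vertices: branch vertices `a`, and `(a, b, i)`, the `i`-th vertex from `a` on the path from
`a` to `b` -/
abbrev Vert (m r : ℕ) : Type := Fin m ⊕ (Fin m × Fin m × Fin r)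

/-- the adjacency (not symmetrised) -/
def rel (m r : ℕ) : Vert m r → Vert m r → Prop
  | Sum.inl a, Sum.inr (a', _, i) => a = a' ∧ i.val = 0
  | Sum.inr (a, b, i), Sum.inr (a', b', j) =>
      (a = a' ∧ b = b' ∧ i.val + 1 = j.val) ∨ (a = b' ∧ b = a' ∧ i.val + 1 = r ∧ j.val + 1 = r)
  | _, _ => False

/-- the subdivided clique -/
def SK (m r : ℕ) : SimpleGraph (Vert m r) := SimpleGraph.fromRel (rel m r)

/-- the position on the path -/
def pos {m r : ℕ} (a b : Fin m) (i : Fin r) : ℕ := if a ≤ b then i.val else 2 * r - 1 - i.val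

theorem pos_inj {m r : ℕ} {a b a' b' : Fin m} {i i' : Fin r} (he : s(a, b) = s(a', b'))
    (hp : pos a b i = pos a' b' i') : a = a' ∧ b = b' ∧ i = i' := by
  unfold pos at hp
  have hi := i.2
  have hi' := i'.2
  rw [Sym2.eq_iff] at he
  rcases he with ⟨rfl, rfl⟩ | ⟨rfl, rfl⟩
  · refine ⟨rfl, rfl, ?_⟩
    split_ifs at hp
    · exact Fin.ext hp
    · apply Fin.ext
      omega
  · split_ifs at hp with h1 h2 h2
    · have := le_antisymm h1 h2
      subst this
      exact ⟨rfl, rfl, Fin.ext hp⟩
    · omega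
    · omega
    · exact absurd (le_of_not_ge h1) (by simpa using h2)

/-! ### Separators -/

section Sep

variable {V : Type} {G : SimpleGraph V} {m r : ℕ} {φ : V → Vert m r}

/-- the half-path from `a` towards `b` is completely contained in the graph -/
def Full (φ : V → Vert m r) (a b : Fin m) : Prop := ∀ j : Fin r, ∃ v, φ v = Sum.inr (a, b, j)

/-- `a` and the first vertices up to `i` on the half-path from `a` towards `b` remain -/
def Near (φ : V → Vert m r) (S : Set V) (a b : Fin m) (i : Fin r) : Prop :=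
  (∃ v, v ∉ S ∧ φ v = Sum.inl a) ∧ ∀ j : Fin r, j.val ≤ i.val → ∃ v, φ v = Sum.inr (a, b, j)

open Classical in
/-- the label of a vertex -/
noncomputable def lab (φ : V → Vert m r) (S : Set V) (e₀ : Sym2 (Fin m)) (p : ℕ) (x : Vert m r) :
    Fin m ⊕ (Sym2 (Fin m) × Bool) :=
  match x with
  | Sum.inl a => Sum.inl a
  | Sum.inr (a, b, i) =>
      if Near φ S a b i then Sum.inl a else
        Sum.inr (s(a, b), decide (s(a, b) = e₀ ∧ pos a b i < p))

theorem lab_rel {S : Set V} {e₀ : Sym2 (Fin m)} {p : ℕ}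
    (hS : ∀ a b, Full φ a b → ∀ v, φ v = Sum.inl a → v ∈ S)
    (hp : ∀ v a b i, φ v = Sum.inr (a, b, i) → s(a, b) = e₀ → pos a b i = p → v ∈ S)
    {u v : V} (hu : u ∉ S) (hv : v ∉ S) (hne : φ u ≠ φ v) (h : rel m r (φ u) (φ v)) :
    lab φ S e₀ p (φ u) = lab φ S e₀ p (φ v) := by
  rcases hφu : φ u with a | ⟨a, b, i⟩
  · rcases hφv : φ v with a' | ⟨a', b', i'⟩
    · rw [hφu, hφv] at h
      exact h.elim
    · rw [hφu, hφv] at h
      obtain ⟨rfl, hi⟩ := h
      have : Near φ S a b' i' := by
        refine ⟨⟨u, hu, hφu⟩, fun j hj => ⟨v, ?_⟩⟩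
        have : j = i' := Fin.ext (by omega)
        rw [this]
        exact hφv
      simp [lab, this]
  · rcases hφv : φ v with a' | ⟨a', b', i'⟩
    · rw [hφu, hφv] at h
      exact h.elim
    · rw [hφu, hφv] at h
      have hside : s(a, b) = s(a', b') → (pos a b i < p ↔ pos a' b' i' < p) ∨ s(a, b) ≠ e₀ := by
        intro he
        by_cases hee : s(a, b) = e₀
        · left
          have h1 : pos a b i ≠ p := fun h => hu (hp u a b i hφu hee h)
          have h2 : pos a' b' i' ≠ p := fun h => hv (hp v a' b' i' hφv (he ▸ hee) h)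
          have h3 : pos a b i ≤ pos a' b' i' + 1 ∧ pos a' b' i' ≤ pos a b i + 1 := by
            have hi := i.2
            have hi' := i'.2
            rcases h with ⟨rfl, rfl, h⟩ | ⟨rfl, rfl, h, h'⟩
            · unfold pos
              split_ifs <;> omega
            · have : a ≠ b := by
                rintro rfl
                apply hne
                rw [hφu, hφv]
                have : i = i' := Fin.ext (by omega)
                rw [this]
              unfold pos
              split_ifs with h1 h2 h2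
              · exact absurd (le_antisymm h1 h2) this
              · omega
              · omega
              · exact absurd (le_of_not_ge h1) (by simpa using h2)
          omega
        · right
          exact hee
      rcases h with ⟨rfl, rfl, h⟩ | ⟨rfl, rfl, h, h'⟩
      · have hnear : Near φ S a b i ↔ Near φ S a b i' := by
          constructor
          · rintro ⟨h1, h2⟩
            refine ⟨h1, fun j hj => ?_⟩
            by_cases hj' : j.val ≤ i.val
            · exact h2 j hj'
            · have : j = i' := Fin.ext (by omega)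
              rw [this]
              exact ⟨v, hφv⟩
          · rintro ⟨h1, h2⟩
            exact ⟨h1, fun j hj => h2 j (by omega)⟩
        by_cases hN : Near φ S a b i
        · have hN' := hnear.1 hN
          simp only [lab, hN, hN', if_true]
        · have hN' : ¬ Near φ S a b i' := fun h => hN (hnear.2 h)
          simp only [lab, hN, hN', if_false]
          rcases hside rfl with h1 | h1
          · simp [h1]
          · simp [h1]
      · have hn1 : ¬ Near φ S a b i := by
          rintro ⟨⟨w, hw, hw'⟩, h2⟩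
          exact hw (hS a b (fun j => h2 j (by have := j.2; omega)) w hw')
        have hn2 : ¬ Near φ S b a i' := by
          rintro ⟨⟨w, hw, hw'⟩, h2⟩
          exact hw (hS b a (fun j => h2 j (by have := j.2; omega)) w hw')
        simp only [lab, hn1, hn2, if_false]
        have he : s(a, b) = s(b, a) := Sym2.eq_swap
        rcases hside he with h1 | h1
        · rw [← he]
          simp [h1]
        · rw [← he]
          simp [h1]

theorem lab_adj (hhom : ∀ u v, G.Adj u v → (SK m r).Adj (φ u) (φ v))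
    {S : Set V} {e₀ : Sym2 (Fin m)} {p : ℕ}
    (hS : ∀ a b, Full φ a b → ∀ v, φ v = Sum.inl a → v ∈ S)
    (hp : ∀ v a b i, φ v = Sum.inr (a, b, i) → s(a, b) = e₀ → pos a b i = p → v ∈ S)
    {u v : V} (hu : u ∉ S) (hv : v ∉ S) (h : G.Adj u v) :
    lab φ S e₀ p (φ u) = lab φ S e₀ p (φ v) := by
  have h1 := hhom u v h
  rw [SK, SimpleGraph.fromRel_adj] at h1
  obtain ⟨hne, h1 | h1⟩ := h1
  · exact lab_rel hS hp hu hv hne h1
  · exact (lab_rel hS hp hv hu hne.symm h1).symm

theorem component_subset [Finite V]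
    (hhom : ∀ u v, G.Adj u v → (SK m r).Adj (φ u) (φ v))
    {S : Set V} {e₀ : Sym2 (Fin m)} {p : ℕ}
    (hS : ∀ a b, Full φ a b → ∀ v, φ v = Sum.inl a → v ∈ S)
    (hp : ∀ v a b i, φ v = Sum.inr (a, b, i) → s(a, b) = e₀ → pos a b i = p → v ∈ S)
    (c : (G.induce Sᶜ).ConnectedComponent) :
    ∃ l, Nat.card c.supp ≤ {v : V | v ∉ S ∧ lab φ S e₀ p (φ v) = l}.ncard := by
  obtain ⟨⟨u, hu⟩, rfl⟩ := c.exists_rep
  refine ⟨lab φ S e₀ p (φ u), ?_⟩
  have key : ∀ {x y : ↥Sᶜ}, (G.induce Sᶜ).Walk x y →
      lab φ S e₀ p (φ x.1) = lab φ S e₀ p (φ y.1) := by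
    intro x y w
    induction w with
    | nil => rfl
    | @cons x y z h w ih =>
      rw [← ih]
      exact lab_adj hhom hS hp x.2 y.2 h
  rw [Nat.card_coe_set_eq]
  have hinj : Function.Injective (Subtype.val : ↥Sᶜ → V) := Subtype.val_injective
  rw [← Set.ncard_image_of_injective _ hinj]
  refine Set.ncard_le_ncard ?_ (Set.toFinite _)
  rintro _ ⟨x, hx, rfl⟩
  refine ⟨x.2, ?_⟩
  have hx' : (G.induce Sᶜ).Reachable x ⟨u, hu⟩ := SimpleGraph.ConnectedComponent.exact hx
  obtain ⟨w⟩ := hx'
  exact key w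

/-- the vertices owned by `a` -/
def own (φ : V → Vert m r) (a : Fin m) : Set V :=
  {v | φ v = Sum.inl a ∨ ∃ b i, φ v = Sum.inr (a, b, i)}

/-- the interior vertices of the path `e` -/
def inn (φ : V → Vert m r) (e : Sym2 (Fin m)) : Set V :=
  {v | ∃ a b i, φ v = Sum.inr (a, b, i) ∧ s(a, b) = e}

theorem two_mul_le_of_disjoint {α : Type} [Finite α] {s t : Set α} (h : Disjoint s t)
    (hle : s.ncard ≤ t.ncard) : 2 * s.ncard ≤ Nat.card α := by
  have h1 : (s ∪ t).ncard ≤ Nat.card α := by
    rw [← Set.ncard_univ]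
    exact Set.ncard_le_ncard (Set.subset_univ _) (Set.toFinite _)
  rw [Set.ncard_union_eq h (Set.toFinite _) (Set.toFinite _)] at h1
  omega

theorem exists_median {α : Type} [Finite α] (E : Set α) (g : α → ℕ) :
    ∃ p : ℕ, 2 * {v | v ∈ E ∧ g v < p}.ncard ≤ E.ncard ∧ 2 * {v | v ∈ E ∧ p < g v}.ncard ≤ E.ncard := by
  classical
  have hex : ∃ p : ℕ, E.ncard ≤ 2 * {v | v ∈ E ∧ g v ≤ p}.ncard := by
    obtain ⟨N, hN⟩ := (Set.toFinite (Set.range g)).bddAbove
    refine ⟨N, ?_⟩
    have : {v | v ∈ E ∧ g v ≤ N} = E := by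
      ext v
      simp only [Set.mem_ofPred_eq, and_iff_left_iff_imp]
      intro _
      exact hN ⟨v, rfl⟩
    rw [this]
    omega
  refine ⟨Nat.find hex, ?_, ?_⟩
  · rcases Nat.eq_zero_or_pos (Nat.find hex) with h0 | h0
    · rw [h0]
      simp
    · have h1 := Nat.find_min hex (Nat.sub_lt h0 Nat.one_pos)
      have h2 : {v | v ∈ E ∧ g v < Nat.find hex} = {v | v ∈ E ∧ g v ≤ Nat.find hex - 1} := by
        ext v
        simp only [Set.mem_ofPred_eq]
        constructor
        · rintro ⟨h, h'⟩
          exact ⟨h, by omega⟩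
        · rintro ⟨h, h'⟩
          exact ⟨h, by omega⟩
      rw [h2]
      omega
  · have h1 := Nat.find_spec hex
    have h2 : {v | v ∈ E ∧ Nat.find hex < g v} = E \ {v | v ∈ E ∧ g v ≤ Nat.find hex} := by
      ext v
      simp only [Set.mem_ofPred_eq, Set.mem_sdiff, not_and, not_le]
      constructor
      · rintro ⟨h, h'⟩
        exact ⟨h, fun _ => h'⟩
      · rintro ⟨h, h'⟩
        exact ⟨h, h' h⟩
    rw [h2, Set.ncard_sdiff (fun v hv => hv.1) (Set.toFinite _)]
    omega

/-- the position of a vertex of the graph -/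
def posV (φ : V → Vert m r) (v : V) : ℕ :=
  match φ v with
  | Sum.inl _ => 0
  | Sum.inr (a, b, i) => pos a b i

theorem exists_separator [Finite V] [NeZero m] (hφ : Function.Injective φ)
    (hhom : ∀ u v, G.Adj u v → (SK m r).Adj (φ u) (φ v)) (S₀ : Set (Fin m))
    (hS₀ : ∀ a b, Full φ a b → a ∈ S₀) :
    ∃ S : Set V, IsBalancedSeparator G S ∧ S.ncard ≤ S₀.ncard + 2 := by
  classical
  obtain ⟨a₀, ha₀⟩ := Finite.exists_max (fun a : Fin m => (own φ a).ncard)
  obtain ⟨e₀, he₀⟩ := Finite.exists_max (fun e : Sym2 (Fin m) => (inn φ e).ncard)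
  obtain ⟨p, hp1, hp2⟩ := exists_median (inn φ e₀) (posV φ)
  let S₁ : Set V := {v | ∃ a ∈ S₀, φ v = Sum.inl a}
  let S₂ : Set V := {v | φ v = Sum.inl a₀}
  let S₃ : Set V := {v | v ∈ inn φ e₀ ∧ posV φ v = p}
  let S : Set V := S₁ ∪ S₂ ∪ S₃
  have h1 : S₁.ncard ≤ S₀.ncard := by
    rw [← Set.ncard_image_of_injective S₀ (Sum.inl_injective (β := Fin m × Fin m × Fin r)),
      ← Set.ncard_image_of_injective S₁ hφ]
    refine Set.ncard_le_ncard ?_ (Set.toFinite _)
    rintro _ ⟨v, ⟨a, ha, hv⟩, rfl⟩
    exact ⟨a, ha, hv.symm⟩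
  have h2 : S₂.ncard ≤ 1 := by
    rw [Set.ncard_le_one (Set.toFinite _)]
    intro x hx y hy
    exact hφ (hx.trans hy.symm)
  have h3 : S₃.ncard ≤ 1 := by
    rw [Set.ncard_le_one (Set.toFinite _)]
    rintro x ⟨⟨a, b, i, hx, hab⟩, hx'⟩ y ⟨⟨a', b', i', hy, hab'⟩, hy'⟩
    simp only [posV, hx] at hx'
    simp only [posV, hy] at hy'
    obtain ⟨rfl, rfl, rfl⟩ := pos_inj (hab.trans hab'.symm) (hx'.trans hy'.symm)
    exact hφ (hx.trans hy.symm)
  have hSS : S.ncard ≤ S₀.ncard + 2 := by
    have h4 := Set.ncard_union_le (S₁ ∪ S₂) S₃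
    have h5 := Set.ncard_union_le S₁ S₂
    have : S.ncard = (S₁ ∪ S₂ ∪ S₃).ncard := rfl
    omega
  refine ⟨S, ?_, hSS⟩
  intro c
  have hS : ∀ a b, Full φ a b → ∀ v, φ v = Sum.inl a → v ∈ S :=
    fun a b hF v hv => Or.inl (Or.inl ⟨a, hS₀ a b hF, hv⟩)
  have hp : ∀ v a b i, φ v = Sum.inr (a, b, i) → s(a, b) = e₀ → pos a b i = p → v ∈ S := by
    intro v a b i hv he hpos
    refine Or.inr ⟨⟨a, b, i, hv, he⟩, ?_⟩
    simp only [posV, hv]
    exact hpos
  obtain ⟨l, hl⟩ := component_subset hhom hS hp c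
  suffices h : 2 * {v : V | v ∉ S ∧ lab φ S e₀ p (φ v) = l}.ncard ≤ Nat.card V by omega
  rcases l with a | ⟨e, t⟩
  · have hsub : {v : V | v ∉ S ∧ lab φ S e₀ p (φ v) = Sum.inl a} ⊆ own φ a := by
      rintro v ⟨_, hv⟩
      rcases hφv : φ v with a' | ⟨a', b', i'⟩
      · rw [hφv] at hv
        simp only [lab, Sum.inl.injEq] at hv
        left
        rw [hφv, hv]
      · rw [hφv] at hv
        simp only [lab] at hv
        split_ifs at hv with hN
        rw [Sum.inl.injEq] at hv
        right
        exact ⟨b', i', by rw [hφv, hv]⟩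
    by_cases haa : a = a₀
    · have hemp : {v : V | v ∉ S ∧ lab φ S e₀ p (φ v) = Sum.inl a} = ∅ := by
        rw [Set.eq_empty_iff_forall_notMem]
        rintro v ⟨hvS, hv⟩
        rcases hφv : φ v with a' | ⟨a', b', i'⟩
        · rw [hφv] at hv
          simp only [lab, Sum.inl.injEq] at hv
          apply hvS
          left; right
          change φ v = Sum.inl a₀
          rw [hφv, hv, haa]
        · rw [hφv] at hv
          simp only [lab] at hv
          split_ifs at hv with hN
          rw [Sum.inl.injEq] at hv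
          obtain ⟨⟨w, hw, hw'⟩, _⟩ := hN
          apply hw
          left; right
          change φ w = Sum.inl a₀
          rw [hw', hv, haa]
      rw [hemp]
      simp
    · have hdis : Disjoint (own φ a) (own φ a₀) := by
        rw [Set.disjoint_left]
        rintro v (hv | ⟨b, i, hv⟩) (hv' | ⟨b', i', hv'⟩)
        · rw [hv] at hv'
          exact haa (Sum.inl_injective hv')
        · rw [hv] at hv'
          simp at hv'
        · rw [hv] at hv'
          simp at hv'
        · rw [hv] at hv'
          simp only [Sum.inr.injEq, Prod.mk.injEq] at hv'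
          exact haa hv'.1
      have := two_mul_le_of_disjoint hdis (ha₀ a)
      have h6 := Set.ncard_le_ncard hsub (Set.toFinite _)
      omega
  · have hsub : {v : V | v ∉ S ∧ lab φ S e₀ p (φ v) = Sum.inr (e, t)} ⊆ inn φ e := by
      rintro v ⟨_, hv⟩
      rcases hφv : φ v with a' | ⟨a', b', i'⟩
      · rw [hφv] at hv
        simp [lab] at hv
      · rw [hφv] at hv
        simp only [lab] at hv
        split_ifs at hv with hN
        simp only [Sum.inr.injEq, Prod.mk.injEq] at hv
        exact ⟨a', b', i', hφv, hv.1⟩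
    by_cases hee : e = e₀
    · subst hee
      have h7 : (inn φ e).ncard ≤ Nat.card V := by
        rw [← Set.ncard_univ]
        exact Set.ncard_le_ncard (Set.subset_univ _) (Set.toFinite _)
      cases t with
      | true =>
        have h6 : {v : V | v ∉ S ∧ lab φ S e p (φ v) = Sum.inr (e, true)}.ncard ≤
            {v | v ∈ inn φ e ∧ posV φ v < p}.ncard := by
          refine Set.ncard_le_ncard ?_ (Set.toFinite _)
          rintro v hv
          refine ⟨hsub hv, ?_⟩
          obtain ⟨_, hv⟩ := hv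
          rcases hφv : φ v with a' | ⟨a', b', i'⟩
          · rw [hφv] at hv
            simp [lab] at hv
          · rw [hφv] at hv
            simp only [lab] at hv
            split_ifs at hv with hN
            simp only [Sum.inr.injEq, Prod.mk.injEq, decide_eq_true_eq] at hv
            simp only [posV, hφv]
            exact hv.2.2
        omega
      | false =>
        have h6 : {v : V | v ∉ S ∧ lab φ S e p (φ v) = Sum.inr (e, false)}.ncard ≤
            {v | v ∈ inn φ e ∧ p < posV φ v}.ncard := by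
          refine Set.ncard_le_ncard ?_ (Set.toFinite _)
          rintro v hv
          refine ⟨hsub hv, ?_⟩
          obtain ⟨hvS, hv⟩ := hv
          rcases hφv : φ v with a' | ⟨a', b', i'⟩
          · rw [hφv] at hv
            simp [lab] at hv
          · rw [hφv] at hv
            simp only [lab] at hv
            split_ifs at hv with hN
            simp only [Sum.inr.injEq, Prod.mk.injEq, decide_eq_false_iff_not, not_and,
              not_lt] at hv
            simp only [posV, hφv]
            have h8 := hv.2 hv.1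
            have h9 : pos a' b' i' ≠ p := fun h => hvS (hp v a' b' i' hφv hv.1 h)
            omega
        omega
    · have hdis : Disjoint (inn φ e) (inn φ e₀) := by
        rw [Set.disjoint_left]
        rintro v ⟨a, b, i, hv, hab⟩ ⟨a', b', i', hv', hab'⟩
        rw [hv] at hv'
        simp only [Sum.inr.injEq, Prod.mk.injEq] at hv'
        obtain ⟨rfl, rfl, rfl⟩ := hv'
        exact hee (hab.symm.trans hab')
      have := two_mul_le_of_disjoint hdis (he₀ e)
      have h6 := Set.ncard_le_ncard hsub (Set.toFinite _)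
      omega

theorem full_bound [Finite V] :
    {a : Fin m | ∃ b, Full φ a b}.ncard * r ≤ Nat.card V := by
  classical
  let F : Set (Fin m) := {a | ∃ b, Full φ a b}
  have hF : ∀ a : F, ∃ b, Full φ a.1 b := fun a => a.2
  choose b hb using hF
  choose g hg using hb
  have hinj : Function.Injective (fun x : F × Fin r => g x.1 x.2) := by
    rintro ⟨a, i⟩ ⟨a', i'⟩ h
    have h1 := hg a i
    have h2 := hg a' i'
    simp only at h
    rw [h, h2] at h1
    simp only [Sum.inr.injEq, Prod.mk.injEq] at h1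
    obtain ⟨h3, _, h4⟩ := h1
    rw [Prod.mk.injEq]
    exact ⟨Subtype.ext h3.symm, h4.symm⟩
  have h1 := Nat.card_le_card_of_injective _ hinj
  rw [Nat.card_prod, Nat.card_coe_set_eq, Nat.card_eq_fintype_card (α := Fin r),
    Fintype.card_fin] at h1
  exact h1

end Sep

/-! ### The class -/

/-- The class of all graphs contained in some `SK (r^k) r`, `r ≥ 1`. -/
def cls (k : ℕ) : MonotoneClass where
  mem G := ∃ r : ℕ, 1 ≤ r ∧ G ⊑ SK (r ^ k) r
  finite := by
    rintro V G ⟨r, _, ⟨f⟩⟩
    exact Finite.of_injective f f.injective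
  mono := by
    rintro V W G H hGH ⟨r, hr, h⟩
    exact ⟨r, hr, hGH.trans h⟩

theorem separators (k : ℕ) : SublinearSeparators (cls k) (1 / ((k : ℝ) + 1)) := by
  refine ⟨3, ?_⟩
  rintro V G ⟨r, hr, ⟨f⟩⟩
  have : Finite V := Finite.of_injective f f.injective
  have : NeZero (r ^ k) := ⟨by positivity⟩
  have hhom : ∀ u v, G.Adj u v → (SK (r ^ k) r).Adj (f u) (f v) := fun u v h => f.toHom.map_adj h
  have hinj : Function.Injective (f : V → Vert (r ^ k) r) := f.injective
  set n : ℕ := Nat.card V with hn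
  rcases Nat.eq_zero_or_pos n with h0 | hpos
  · refine ⟨∅, ?_, ?_⟩
    · intro c
      have : Finite (G.induce (∅ : Set V)ᶜ).ConnectedComponent := inferInstance
      have h1 : Nat.card c.supp ≤ Nat.card V := by
        rw [Nat.card_coe_set_eq]
        have hinj' : Function.Injective (Subtype.val : ↥(∅ : Set V)ᶜ → V) :=
          Subtype.val_injective
        rw [← Set.ncard_image_of_injective _ hinj', ← Set.ncard_univ]
        exact Set.ncard_le_ncard (Set.subset_univ _) (Set.toFinite _)
      omega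
    · rw [Set.ncard_empty, Nat.cast_zero]
      positivity
  · let x : ℝ := (n : ℝ) ^ (1 / ((k : ℝ) + 1))
    have hn1 : (1 : ℝ) ≤ n := by exact_mod_cast hpos
    have hx0 : 0 < x := Real.rpow_pos_of_pos (by linarith) _
    have hx1 : 1 ≤ x := Real.one_le_rpow hn1 (by positivity)
    have hxk : x ^ (k + 1) = n := by
      change ((n : ℝ) ^ (1 / ((k : ℝ) + 1))) ^ (k + 1) = n
      rw [← Real.rpow_natCast, ← Real.rpow_mul (by linarith)]
      push_cast
      rw [one_div, inv_mul_cancel₀ (by positivity), Real.rpow_one]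
    have hxk' : (n : ℝ) ^ (1 - 1 / ((k : ℝ) + 1)) = x ^ k := by
      change _ = ((n : ℝ) ^ (1 / ((k : ℝ) + 1))) ^ k
      rw [← Real.rpow_natCast, ← Real.rpow_mul (by linarith)]
      congr 1
      field_simp
      ring
    have hr' : (1 : ℝ) ≤ r := by exact_mod_cast hr
    have hxk1 : 1 ≤ x ^ k := one_le_pow₀ hx1
    rw [hxk']
    by_cases hrx : (r : ℝ) ≤ x
    · obtain ⟨S, hS, hcard⟩ := exists_separator hinj hhom Set.univ (fun _ _ _ => Set.mem_univ _)
      refine ⟨S, hS, ?_⟩
      rw [Set.ncard_univ, Nat.card_eq_fintype_card, Fintype.card_fin] at hcard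
      have h1 : (S.ncard : ℝ) ≤ (r : ℝ) ^ k + 2 := by exact_mod_cast hcard
      have h2 : (r : ℝ) ^ k ≤ x ^ k := by gcongr
      linarith
    · push Not at hrx
      obtain ⟨S, hS, hcard⟩ := exists_separator hinj hhom
        {a | ∃ b, Full (f : V → Vert (r ^ k) r) a b} (fun a b h => ⟨b, h⟩)
      refine ⟨S, hS, ?_⟩
      have h1 := full_bound (φ := (f : V → Vert (r ^ k) r))
      set t := {a | ∃ b, Full (f : V → Vert (r ^ k) r) a b}.ncard with ht
      have h2 : (t : ℝ) * r ≤ n := by exact_mod_cast h1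
      have h3 : (S.ncard : ℝ) ≤ t + 2 := by exact_mod_cast hcard
      have h4 : (t : ℝ) ≤ x ^ k := by
        by_contra hc
        push Not at hc
        have : (n : ℝ) < t * r := by
          rw [← hxk, pow_succ]
          calc x ^ k * x < t * x := by gcongr
            _ ≤ t * r := by gcongr
        linarith
      linarith

/-- `K_m` is a depth-`r` minor of `SK m r`. -/
theorem minor (m r : ℕ) (hr : 1 ≤ r) : IsShallowMinor r (⊤ : SimpleGraph (Fin m)) (SK m r) := by
  refine ⟨fun a => own (id : Vert m r → Vert m r) a, ?_, ?_, ?_⟩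
  · intro a a' haa
    rw [Set.disjoint_left]
    rintro v (hv | ⟨b, i, hv⟩) (hv' | ⟨b', i', hv'⟩)
    · rw [hv] at hv'
      exact haa (Sum.inl_injective hv')
    · rw [hv] at hv'
      simp at hv'
    · rw [hv] at hv'
      simp at hv'
    · rw [hv] at hv'
      simp only [Sum.inr.injEq, Prod.mk.injEq] at hv'
      exact haa hv'.1
  · intro a
    have key : ∀ (b : Fin m) (j : ℕ) (hj : j < r), ∃ p : (SK m r).Walk (Sum.inl a)
        (Sum.inr (a, b, ⟨j, hj⟩)), p.length ≤ j + 1 ∧
          ∀ z ∈ p.support, z ∈ own (id : Vert m r → Vert m r) a := by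
      intro b j
      induction j with
      | zero =>
        intro hj
        have hadj : (SK m r).Adj (Sum.inl a) (Sum.inr (a, b, ⟨0, hj⟩)) := by
          rw [SK, SimpleGraph.fromRel_adj]
          exact ⟨by simp, Or.inl ⟨rfl, rfl⟩⟩
        refine ⟨SimpleGraph.Walk.cons hadj SimpleGraph.Walk.nil, by simp, ?_⟩
        intro z hz
        simp only [SimpleGraph.Walk.support_cons, SimpleGraph.Walk.support_nil,
          List.mem_cons, List.not_mem_nil, or_false] at hz
        rcases hz with rfl | rfl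
        · exact Or.inl rfl
        · exact Or.inr ⟨b, _, rfl⟩
      | succ j ih =>
        intro hj
        obtain ⟨p, hp, hp'⟩ := ih (by omega)
        have hadj : (SK m r).Adj (Sum.inr (a, b, ⟨j, by omega⟩)) (Sum.inr (a, b, ⟨j + 1, hj⟩)) := by
          rw [SK, SimpleGraph.fromRel_adj]
          exact ⟨by simp, Or.inl (Or.inl ⟨rfl, rfl, rfl⟩)⟩
        refine ⟨p.concat hadj, by rw [SimpleGraph.Walk.length_concat]; omega, ?_⟩
        intro z hz
        rw [SimpleGraph.Walk.support_concat, List.mem_append] at hz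
        rcases hz with hz | hz
        · exact hp' z hz
        · simp only [List.mem_cons, List.not_mem_nil, or_false] at hz
          rw [hz]
          exact Or.inr ⟨b, _, rfl⟩
    refine ⟨Sum.inl a, Or.inl rfl, ?_⟩
    rintro y (hy | ⟨b, i, hy⟩)
    · simp only [id] at hy
      subst hy
      refine ⟨SimpleGraph.Walk.nil, by simp, ?_⟩
      intro z hz
      simp only [SimpleGraph.Walk.support_nil, List.mem_cons, List.not_mem_nil, or_false] at hz
      rw [hz]
      exact Or.inl rfl
    · simp only [id] at hy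
      subst hy
      obtain ⟨p, hp, hp'⟩ := key b i.1 i.2
      exact ⟨p, by have := i.2; omega, hp'⟩
  · intro a b hab
    have hab' : a ≠ b := hab
    refine ⟨Sum.inr (a, b, ⟨r - 1, by omega⟩), Or.inr ⟨b, _, rfl⟩,
      Sum.inr (b, a, ⟨r - 1, by omega⟩), Or.inr ⟨a, _, rfl⟩, ?_⟩
    rw [SK, SimpleGraph.fromRel_adj]
    refine ⟨?_, Or.inl (Or.inr ⟨rfl, rfl, ?_, ?_⟩)⟩
    · simp only [ne_eq, Sum.inr.injEq, Prod.mk.injEq, not_and]
      intro h
      exact absurd h hab'
    · simp only
      omega
    · simp only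
      omega

theorem avgDegree_top (m : ℕ) (hm : 1 ≤ m) : avgDegree (⊤ : SimpleGraph (Fin m)) = (m : ℝ) - 1 := by
  unfold avgDegree
  rw [Set.ncard_eq_toFinset_card', Nat.card_eq_fintype_card, Fintype.card_fin]
  have h1 : (⊤ : SimpleGraph (Fin m)).edgeSet.toFinset.card = m.choose 2 := by
    have := SimpleGraph.card_edgeFinset_top_eq_card_choose_two (V := Fin m)
    rw [Fintype.card_fin] at this
    exact this
  rw [h1, Nat.cast_choose_two]
  have : (m : ℝ) ≠ 0 := by
    have : (0 : ℝ) < m := by exact_mod_cast hm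
    exact this.ne'
  field_simp

theorem rpow_littleO {p q : ℝ} (h : p < q) :
    (fun x : ℝ => x ^ p) =o[atTop] (fun x : ℝ => x ^ q) := by
  rw [isLittleO_iff_tendsto']
  · have h1 : Tendsto (fun x : ℝ => x ^ (-(q - p))) atTop (nhds 0) :=
      tendsto_rpow_neg_atTop (by linarith)
    refine h1.congr' ?_
    filter_upwards [eventually_gt_atTop 0] with x hx
    rw [← Real.rpow_sub hx]
    congr 1
    ring
  · filter_upwards [eventually_gt_atTop 0] with x hx h0
    exact absurd h0 (Real.rpow_pos_of_pos hx _).ne'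

/-- Every exponent `c` in the set `A` of the problem is at least `1`; so `c^* ≥ 1`, and with the
known bound `c^* ≤ 1` one has `c^* = 1`. -/
theorem result : ∀ c ∈ A, 1 ≤ c := by
  rintro c ⟨hc0, hc⟩
  have key : ∀ k : ℕ, (k : ℝ) ≤ c * (k + 1) := by
    intro k
    have hδ0 : (0 : ℝ) < 1 / ((k : ℝ) + 1) := by positivity
    have hδ1 : 1 / ((k : ℝ) + 1) ≤ 1 := by
      rw [div_le_one (by positivity)]
      have : (0 : ℝ) ≤ k := Nat.cast_nonneg k
      linarith
    obtain ⟨f, hf, hfO⟩ := hc _ hδ0 hδ1 (cls k) (separators k)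
    have hlow : ∀ r : ℕ, 1 ≤ r → (r : ℝ) ^ k - 1 ≤ f r := by
      intro r hr
      have : Nonempty (Fin (r ^ k)) := ⟨⟨0, by positivity⟩⟩
      have h1 := hf r (SK (r ^ k) r) ⟨r, hr, SimpleGraph.IsContained.refl _⟩
        (⊤ : SimpleGraph (Fin (r ^ k))) (minor (r ^ k) r hr)
      rw [avgDegree_top _ (Nat.one_le_pow _ _ hr)] at h1
      push_cast at h1
      exact h1
    by_contra hlt
    push Not at hlt
    have hexp : c / (1 / ((k : ℝ) + 1)) = c * (k + 1) := by
      field_simp
    rw [hexp] at hfO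
    have h2 : (fun r : ℕ => (r : ℝ) ^ (c * (k + 1))) =o[atTop] (fun r : ℕ => (r : ℝ) ^ (k : ℝ)) :=
      (rpow_littleO hlt).comp_tendsto tendsto_natCast_atTop_atTop
    have h3 : f =o[atTop] (fun r : ℕ => (r : ℝ) ^ (k : ℝ)) := hfO.trans_isLittleO h2
    have h4 := h3.def (c := 1 / 2) (by norm_num)
    have hk0 : (0 : ℝ) < k := by
      have : 0 < c * ((k : ℝ) + 1) := by positivity
      linarith
    have h5 : ∀ᶠ r : ℕ in atTop, 4 ≤ (r : ℝ) ^ (k : ℝ) :=
      ((tendsto_rpow_atTop hk0).comp tendsto_natCast_atTop_atTop).eventually_ge_atTop 4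
    obtain ⟨r, ⟨h6, h7⟩, h8⟩ := ((h4.and h5).and (eventually_ge_atTop 1)).exists
    have h9 := hlow r h8
    rw [Real.norm_eq_abs, Real.norm_of_nonneg (by positivity)] at h6
    rw [Real.rpow_natCast] at h6 h7
    have h10 := le_abs_self (f r)
    linarith
  by_contra hlt
  push Not at hlt
  obtain ⟨k, hk⟩ := exists_nat_gt (c / (1 - c))
  have h1 := key k
  rw [div_lt_iff₀ (by linarith)] at hk
  nlinarith

end Pool.Agent.Results.MP_2f3b43_co.ExponentOne
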